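import Pool.Agent.H238.PH.J

set_option autoImplicit false

namespace Pool.Agent.H238.PH

open MeasureTheory Set Filter Topology
open scoped ContDiff RealInnerProductSpace ComplexConjugate

lemma grad_hom {n : ℕ} {β : ℝ} {h : RE 2 → RE n}
    (hA : ∀ (t : ℝ) (x : RE 2), 0 < t → fderiv ℝ h (t • x) = t ^ (β - 1) • fderiv ℝ h x)
    (t : ℝ) (x : RE 2) (ht : 0 < t) : grad h (t • x) = t ^ (β - 1) • grad h x := by
  ext b
  simp [grad, hA t x ht]

lemma Vop_smul {n d : ℕ} {p : ℝ} {s : ℝ} (hs : 0 < s) (ξ : Mat n d) :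
    Vop p (s • ξ) = s ^ (p / 2) • Vop p ξ := by
  unfold Vop
  rw [norm_smul, Real.norm_of_nonneg hs.le, Real.mul_rpow hs.le (norm_nonneg _), smul_smul,
    smul_smul]
  congr 1
  have : s ^ (p / 2) = s ^ ((p - 2) / 2) * s := by
    nth_rewrite 3 [← Real.rpow_one s]
    rw [← Real.rpow_add hs]; congr 1; ring
  rw [this]; ring

lemma Vop_ne_zero {n d : ℕ} {p : ℝ} {ξ : Mat n d} (hξ : ξ ≠ 0) : Vop p ξ ≠ 0 := by
  unfold Vop
  have := norm_pos_iff.mpr hξ
  exact smul_ne_zero (Real.rpow_pos_of_pos this _).ne' hξ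

lemma osc_const {n d : ℕ} (a : Mat n d) (x : RE d) (r : ℝ) :
    osc (fun _ => a) (Metric.ball x r) = 0 := by
  unfold osc
  by_cases hr : 0 < r
  · have h1 : (volume (Metric.ball x r)) ≠ 0 := (Metric.measure_ball_pos volume x hr).ne'
    have h2 : (volume (Metric.ball x r)) ≠ ⊤ := measure_ball_lt_top.ne
    rw [setAverage_const h1 h2 a, setAverage_const h1 h2]
    simp
  · rw [Metric.ball_eq_empty.mpr (not_lt.mp hr)]
    simp

theorem main (hA : S_A) (hB : S_B) (hJ : S_J) (hK : S_K) (hL : S_L) (hM : S_M) (hN1 : S_N1)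
    (hN2 : S_N2) (hO2 : S_O2) {n : ℕ} {p : ℝ} (hp : 1 < p) (hp2 : p ≠ 2) :
    (∀ (β : ℝ) (h : RE 2 → RE n), IsPHarmonic p h → Hom β h →
      ((∀ x, grad h x = grad h 0) ∨ (4 ≤ β * ((p - 1) * β + 2 - p) ∧ 1 + 2 / p < β)) ∧
      ContDiff ℝ 1 (fun x => Vop p (grad h x)) ∧
      ∃ c : ℝ, ∀ (x : RE 2) (r θ : ℝ), 0 < r → 0 < θ → θ ≤ 1 →
        osc (fun y => Vop p (grad h y)) (Metric.ball x (θ * r))
          ≤ c * θ * osc (fun y => Vop p (grad h y)) (Metric.ball x r)) ∧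
    (2 ≤ n → ∃ (β : ℝ) (h : RE 2 → RE n), 1 < β ∧ β * ((p - 1) * β + 2 - p) = 4 ∧
      IsPHarmonic p h ∧ Hom β h ∧ ¬ (∀ x, grad h x = grad h 0)) := by
  refine ⟨?_, ?_⟩
  swap
  · intro hn
    obtain ⟨β, h, h1, h2, h3, h4, h5⟩ := hO2 n p hp hn
    exact ⟨β, h, h1, h2, h3, h4, h5⟩
  intro β h hph hhom
  obtain ⟨hA1, hA2, hA3⟩ := hA n β h hph.contDiff hhom
  by_cases hc : ∀ x, grad h x = grad h 0
  · refine ⟨Or.inl hc, ?_, 0, ?_⟩
    · have : (fun x => Vop p (grad h x)) = fun _ => Vop p (grad h 0) := by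
        funext x; rw [hc x]
      rw [this]; exact contDiff_const
    · intro x r θ hr hθ hθ1
      have : (fun x => Vop p (grad h x)) = fun _ => Vop p (grad h 0) := by
        funext x; rw [hc x]
      rw [this, osc_const, osc_const]; simp
  · have hβ : 1 < β := by
      by_contra hβ
      exact hc fun x => grad_congr h x 0 (hA2 (not_lt.mp hβ) x)
    obtain ⟨hC4, hpos, hG1⟩ := hJ n p β h hp hβ hph hhom hc
    obtain ⟨hβp, hγ⟩ := hK p β hp hp2 hβ hC4
    set V : RE 2 → Mat n 2 := fun x => Vop p (grad h x) with hV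
    set γ := (β - 1) * p / 2 with hγdef
    have hVhom : Hom γ V := by
      intro t x ht
      simp only [hV]
      rw [grad_hom hA1 t x ht, Vop_smul (Real.rpow_pos_of_pos ht _), ← Real.rpow_mul ht.le]
      congr 2; rw [hγdef]; ring
    have hg1 : ContDiff ℝ 1 (fun t => Vop p (grad h (ec t))) := by
      have hs : ContDiff ℝ 1 (fun t => ‖grad h (ec t)‖ ^ ((p - 2) / 2)) := by
        rw [contDiff_iff_contDiffAt]
        intro t
        apply ContDiffAt.rpow_const_of_ne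
        · exact (hG1.contDiffAt).norm ℝ (norm_pos_iff.mp (hpos t))
        · exact (hpos t).ne'
      exact hs.smul hG1
    have hVC : ∀ x, x ≠ 0 → ContDiffAt ℝ 1 V x :=
      hL n γ V (fun t => Vop p (grad h (ec t))) hg1 (fun r t hr => hVhom r (ec t) hr)
    obtain ⟨hVC1, L, hL0, hVL⟩ := hM n γ V hγ hVhom hVC
    have hVne : ∀ x, x ≠ 0 → V x ≠ 0 := by
      intro x hx
      obtain ⟨t, ht⟩ := exists_polar x hx
      simp only [hV]
      apply Vop_ne_zero
      rw [ht, grad_hom hA1 _ _ (norm_pos_iff.mpr hx)]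
      exact smul_ne_zero (Real.rpow_pos_of_pos (norm_pos_iff.mpr hx) _).ne' (norm_pos_iff.mp (hpos t))
    obtain ⟨c₀, hc₀, hlow⟩ := hN2 n γ V hγ hVhom hVC1.continuous hVne
    refine ⟨Or.inr ⟨hC4, hβp⟩, hVC1, 2 * L / c₀, ?_⟩
    intro x r θ hr hθ hθ1
    have h1 := hN1 n γ L V hγ hL0 hVC1 hVL x (θ * r) (by positivity)
    have h2 := hlow x r hr
    have h3 : (‖x‖ + θ * r) ^ (γ - 1) ≤ (‖x‖ + r) ^ (γ - 1) := by
      apply Real.rpow_le_rpow (by positivity) _ (by linarith)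
      nlinarith
    calc osc V (Metric.ball x (θ * r)) ≤ 2 * (θ * r) * L * (‖x‖ + θ * r) ^ (γ - 1) := h1
      _ ≤ 2 * (θ * r) * L * (‖x‖ + r) ^ (γ - 1) := mul_le_mul_of_nonneg_left h3 (by positivity)
      _ = 2 * L / c₀ * θ * (c₀ * r * (‖x‖ + r) ^ (γ - 1)) := by field_simp
      _ ≤ 2 * L / c₀ * θ * osc V (Metric.ball x r) := mul_le_mul_of_nonneg_left h2 (by positivity)

end Pool.Agent.H238.PH
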