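import Pool.Agent.H238.PH.Spec

set_option autoImplicit false

namespace Pool.Agent.H238.PH

open MeasureTheory Set Filter Topology
open scoped ContDiff RealInnerProductSpace ComplexConjugate

lemma ec_apply0 (t : ℝ) : ec t 0 = Real.cos t := by simp [ec]
lemma ec_apply1 (t : ℝ) : ec t 1 = Real.sin t := by simp [ec]
lemma et_apply0 (t : ℝ) : et t 0 = -Real.sin t := by simp [et]
lemma et_apply1 (t : ℝ) : et t 1 = Real.cos t := by simp [et]

lemma contDiff_ec {m : WithTop ℕ∞} : ContDiff ℝ m ec := by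
  rw [contDiff_euclidean]
  intro i
  fin_cases i
  · simp only [Fin.zero_eta, ec_apply0]; exact Real.contDiff_cos
  · simp only [Fin.mk_one, ec_apply1]; exact Real.contDiff_sin

lemma contDiff_et {m : WithTop ℕ∞} : ContDiff ℝ m et := by
  rw [contDiff_euclidean]
  intro i
  fin_cases i
  · simp only [Fin.zero_eta, et_apply0]; exact Real.contDiff_sin.neg
  · simp only [Fin.mk_one, et_apply1]; exact Real.contDiff_cos

lemma ec_periodic (t : ℝ) : ec (t + 2 * Real.pi) = ec t := by
  simp [ec]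

lemma et_periodic (t : ℝ) : et (t + 2 * Real.pi) = et t := by
  simp [et]

lemma single_eq (t : ℝ) (i : Fin 2) :
    (EuclideanSpace.single i 1 : RE 2) = ec t i • ec t + et t i • et t := by
  ext j
  have h := Real.sin_sq_add_cos_sq t
  fin_cases i <;> fin_cases j <;> simp [ec, et] <;> nlinarith [h]

lemma grad_apply {n : ℕ} (h : RE 2 → RE n) (x : RE 2) (t : ℝ) (α : Fin n) (i : Fin 2) :
    grad h x (α, i) = ec t i * fderiv ℝ h x (ec t) α + et t i * fderiv ℝ h x (et t) α := by
  simp only [grad]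
  rw [single_eq t i, map_add, map_smul, map_smul]
  simp

lemma grad_eq_zero_iff {n : ℕ} (h : RE 2 → RE n) (x : RE 2) :
    grad h x = 0 ↔ fderiv ℝ h x = 0 := by
  constructor
  · intro hg
    ext v α
    have hv : v = v 0 • EuclideanSpace.single (0 : Fin 2) (1 : ℝ) + v 1 • EuclideanSpace.single (1 : Fin 2) (1 : ℝ) := by
      ext j; fin_cases j <;> simp
    rw [hv, map_add, map_smul, map_smul]
    have h0 : grad h x (α, 0) = 0 := by rw [hg]; simp
    have h1 : grad h x (α, 1) = 0 := by rw [hg]; simp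
    simp only [grad] at h0 h1
    simp [h0, h1]
  · intro hg
    ext β
    simp [grad, hg]

lemma grad_congr {n : ℕ} (h : RE 2 → RE n) (x y : RE 2) (hxy : fderiv ℝ h x = fderiv ℝ h y) :
    grad h x = grad h y := by
  simp only [grad, hxy]

/-- continuity of `N^s u` when `|u| ≤ c N` and `s > -1` -/
lemma cont_rpow_smul {E : Type*} [NormedAddCommGroup E] [NormedSpace ℝ E] {N : ℝ → ℝ} {u : ℝ → E}
    (hN : Continuous N) (hN0 : ∀ t, 0 ≤ N t) (hu : Continuous u) {c : ℝ}
    (hc : ∀ t, ‖u t‖ ≤ c * N t) {s : ℝ} (hs : -1 < s) : Continuous (fun t => N t ^ s • u t) := by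
  rw [continuous_iff_continuousAt]
  intro t₀
  rcases (hN0 t₀).lt_or_eq with h | h
  · have : ContinuousAt (fun t => N t ^ s) t₀ :=
      hN.continuousAt.rpow_const (Or.inl h.ne')
    exact this.smul hu.continuousAt
  · have hu0 : u t₀ = 0 := by
      have := hc t₀
      rw [← h, mul_zero] at this
      exact norm_le_zero_iff.mp this
    have hlim : Tendsto (fun t => |c| * N t ^ (s + 1)) (𝓝 t₀) (𝓝 0) := by
      have h1 : Tendsto (fun t => N t ^ (s + 1)) (𝓝 t₀) (𝓝 (N t₀ ^ (s + 1))) :=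
        (hN.continuousAt.rpow_const (Or.inr (by linarith)))
      rw [← h, Real.zero_rpow (by linarith)] at h1
      simpa using h1.const_mul |c|
    rw [ContinuousAt, hu0, smul_zero]
    refine squeeze_zero_norm (fun t => ?_) hlim
    rw [norm_smul, Real.norm_of_nonneg (Real.rpow_nonneg (hN0 t) s)]
    rcases (hN0 t).lt_or_eq with h' | h'
    · calc N t ^ s * ‖u t‖ ≤ N t ^ s * (|c| * N t) := by
            apply mul_le_mul_of_nonneg_left _ (Real.rpow_nonneg (hN0 t) s)
            exact (hc t).trans (mul_le_mul_of_nonneg_right (le_abs_self c) (hN0 t))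
        _ = |c| * N t ^ (s + 1) := by
            rw [Real.rpow_add h', Real.rpow_one]; ring
    · have : u t = 0 := by
        have := hc t
        rw [← h', mul_zero] at this
        exact norm_le_zero_iff.mp this
      rw [this, norm_zero, mul_zero]
      positivity

lemma CC_pos {p β : ℝ} (hp : 1 < p) (hβ : 1 < β) : 0 < CC p β := by
  unfold CC
  have : 0 < (p - 1) * β + 2 - p := by nlinarith
  positivity

/-- J. The circle analysis. -/
def S_J : Prop := ∀ (n : ℕ) (p β : ℝ) (h : RE 2 → RE n), 1 < p → 1 < β → IsPHarmonic p h →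
  Hom β h → ¬ (∀ x, grad h x = grad h 0) →
  4 ≤ CC p β ∧ (∀ t, 0 < ‖grad h (ec t)‖) ∧ ContDiff ℝ 1 (fun t => grad h (ec t))

lemma exists_polar (x : RE 2) (hx : x ≠ 0) : ∃ t : ℝ, x = ‖x‖ • ec t := by
  have hx' : (⟨x 0, x 1⟩ : ℂ) ≠ 0 := by
    intro h
    apply hx
    have h0 := congrArg Complex.re h
    have h1 := congrArg Complex.im h
    simp at h0 h1
    ext j; fin_cases j <;> simp [h0, h1]
  refine ⟨Complex.arg ⟨x 0, x 1⟩, ?_⟩
  have hn : ‖x‖ = ‖(⟨x 0, x 1⟩ : ℂ)‖ := by
    rw [EuclideanSpace.norm_eq, Complex.norm_def, Complex.normSq_apply]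
    simp [Fin.sum_univ_two, sq]
  ext j
  rw [hn]
  have hc := Complex.norm_mul_cos_arg (⟨x 0, x 1⟩ : ℂ)
  have hs := Complex.norm_mul_sin_arg (⟨x 0, x 1⟩ : ℂ)
  fin_cases j
  · simp only [Fin.zero_eta, PiLp.smul_apply, ec_apply0, smul_eq_mul]; exact hc.symm
  · simp only [Fin.mk_one, PiLp.smul_apply, ec_apply1, smul_eq_mul]; exact hs.symm

theorem t_J (hA : S_A) (hB : S_B) (hC : S_C) (hD : S_D) (hE : S_E) (hF : S_F) (hG : S_G)
    (hI : S_I2) : S_J := by
  intro n p β h hp hβ hph hhom hnc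
  obtain ⟨hA1, -, hA3⟩ := hA n β h hph.contDiff hhom
  obtain ⟨hB1, hB2, hB3, hB4⟩ := hB n β h hph.contDiff hhom
  set φ : ℝ → RE n := fun t => h (ec t) with hφdef
  set v : ℝ → RE n := fun t => fderiv ℝ h (ec t) (et t) with hvdef
  set C := CC p β with hCdef
  have hCpos : 0 < C := CC_pos hp hβ
  have hβ0 : 0 < β := by linarith
  have hfc : Continuous (fun t => fderiv ℝ h (ec t)) :=
    (hph.contDiff.continuous_fderiv (by norm_num)).comp (contDiff_ec (m := 0)).continuous
  have hφc : Continuous φ := hph.contDiff.continuous.comp (contDiff_ec (m := 0)).continuous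
  have hvc : Continuous v := hfc.clm_apply (contDiff_et (m := 0)).continuous
  -- the gradient along the circle
  have hgrad : ∀ t α i, grad h (ec t) (α, i) = β * ec t i * φ t α + et t i * v t α := by
    intro t α i
    rw [grad_apply h (ec t) t α i, hB2 t]
    simp only [PiLp.smul_apply, smul_eq_mul, hφdef, hvdef]
    ring
  have hgc : Continuous (fun t => grad h (ec t)) := by
    have : Continuous (fun t => (WithLp.toLp 2 (fun b : Fin n × Fin 2 => fderiv ℝ h (ec t) (EuclideanSpace.single b.2 1) b.1) : Mat n 2)) := by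
      apply (PiLp.continuous_toLp 2 _).comp
      apply continuous_pi
      intro b
      have : Continuous (fun t => fderiv ℝ h (ec t) (EuclideanSpace.single b.2 1)) :=
        hfc.clm_apply continuous_const
      exact (EuclideanSpace.proj b.1 : RE n →L[ℝ] ℝ).continuous.comp this
    exact this
  have hee : ∀ t, ee β φ v t = ‖grad h (ec t)‖ ^ 2 := fun t => (hB4 t).symm
  have hee0 : ∀ t, 0 ≤ ee β φ v t := fun t => by rw [hee]; positivity
  have heec : Continuous (ee β φ v) := by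
    unfold ee; fun_prop
  have hP : ∀ t, ‖grad h (ec t)‖ ^ (p - 2) = ee β φ v t ^ ((p - 2) / 2) := by
    intro t
    rw [hee, ← Real.rpow_natCast, ← Real.rpow_mul (norm_nonneg _)]
    congr 1; push_cast; ring
  have hφN : ∀ t, ‖φ t‖ ≤ β⁻¹ * ‖grad h (ec t)‖ := by
    intro t
    have h1 : (β * ‖φ t‖) ^ 2 ≤ ‖grad h (ec t)‖ ^ 2 := by
      rw [hB4 t]; nlinarith [sq_nonneg ‖v t‖]
    have h2 : β * ‖φ t‖ ≤ ‖grad h (ec t)‖ :=
      (pow_le_pow_iff_left₀ (by positivity) (norm_nonneg _) two_ne_zero).mp h1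
    rw [inv_mul_eq_div, le_div_iff₀ hβ0]; linarith
  have hvN : ∀ t, ‖v t‖ ≤ 1 * ‖grad h (ec t)‖ := by
    intro t
    have h1 : (‖v t‖) ^ 2 ≤ ‖grad h (ec t)‖ ^ 2 := by
      rw [hB4 t]; nlinarith [sq_nonneg (β * ‖φ t‖)]
    rw [one_mul]
    exact (pow_le_pow_iff_left₀ (by positivity) (norm_nonneg _) two_ne_zero).mp h1
  have hFc : Continuous (fun t => ‖grad h (ec t)‖ ^ (p - 2) • φ t) :=
    cont_rpow_smul hgc.norm (fun t => norm_nonneg _) hφc hφN (by linarith)
  have hGc : Continuous (fun t => ‖grad h (ec t)‖ ^ (p - 2) • v t) :=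
    cont_rpow_smul hgc.norm (fun t => norm_nonneg _) hvc hvN (by linarith)
  have hper : ∀ t, φ (t + 2 * Real.pi) = φ t ∧ v (t + 2 * Real.pi) = v t := by
    intro t
    simp only [hφdef, hvdef, ec_periodic, et_periodic, and_self]
  have hCm := hC n p β h hp hβ hph hhom
  have hGd := hD n (fun t => ‖grad h (ec t)‖ ^ (p - 2) • φ t)
    (fun t => ‖grad h (ec t)‖ ^ (p - 2) • v t) C hCpos.ne' hFc hGc
    (fun t => by simp only [ec_periodic, (hper t).1]) (fun t => by simp only [ec_periodic, (hper t).2])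
    (fun k => (hCm k).1) (fun k => (hCm k).2)
  have hGd' : ∀ t, HasDerivAt (fun s => ee β φ v s ^ ((p - 2) / 2) • v s)
      (-(C • (ee β φ v t ^ ((p - 2) / 2) • φ t))) t := by
    intro t
    have := hGd t
    simpa only [hP] using this
  -- the equation for `e`
  have hed := hE n p β C φ v hp hβ0 hB1 hvc hGd'
  have hDpos : ∀ t, 0 < ee β φ v t →
      min 1 (p - 1) * ee β φ v t ≤ ee β φ v t + (p - 2) * ‖v t‖ ^ 2 := by
    intro t ht
    have h1 : 0 ≤ β ^ 2 * ‖φ t‖ ^ 2 := by positivity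
    have h2 : 0 ≤ ‖v t‖ ^ 2 := by positivity
    have h3 : ee β φ v t + (p - 2) * ‖v t‖ ^ 2 = β ^ 2 * ‖φ t‖ ^ 2 + (p - 1) * ‖v t‖ ^ 2 := by
      unfold ee; ring
    rw [h3]
    unfold ee
    rcases min_le_iff.mp (le_refl (min 1 (p - 1))) with h4 | h4
    all_goals
      have h5 : min 1 (p - 1) ≤ 1 := min_le_left _ _
      have h6 : min 1 (p - 1) ≤ p - 1 := min_le_right _ _
      nlinarith
  have hmin : 0 < min 1 (p - 1) := lt_min one_pos (by linarith)
  have hq : ∀ t, |⟪φ t, v t⟫| ≤ ee β φ v t / (2 * β) := by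
    intro t
    have h1 := abs_real_inner_le_norm (φ t) (v t)
    rw [le_div_iff₀ (by positivity)]
    unfold ee
    nlinarith [sq_nonneg (β * ‖φ t‖ - ‖v t‖), norm_nonneg (φ t), norm_nonneg (v t)]
  have hpos : ∀ t₀, 0 < ee β φ v t₀ → ∀ t, 0 < ee β φ v t := by
    refine hF (ee β φ v) (fun t => 2 * (β ^ 2 - C) * ⟪φ t, v t⟫ * ee β φ v t /
      (ee β φ v t + (p - 2) * ‖v t‖ ^ 2)) (|β ^ 2 - C| / (β * min 1 (p - 1))) heec hee0 ?_
    intro t ht
    refine ⟨hed t ht, ?_⟩
    have h1 := hDpos t ht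
    have h2 : 0 < ee β φ v t + (p - 2) * ‖v t‖ ^ 2 := lt_of_lt_of_le (by positivity) h1
    rw [abs_div, abs_of_pos h2, div_le_iff₀ h2, abs_mul, abs_mul, abs_mul, abs_two,
      abs_of_pos ht]
    have h3 := hq t
    rw [le_div_iff₀ (by positivity)] at h3
    have h4 : |β ^ 2 - C| / (β * min 1 (p - 1)) * ee β φ v t * (min 1 (p - 1) * ee β φ v t)
        = |β ^ 2 - C| * ee β φ v t * (ee β φ v t / β) := by
      field_simp
    have h5 : |β ^ 2 - C| / (β * min 1 (p - 1)) * ee β φ v t * (min 1 (p - 1) * ee β φ v t) ≤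
        |β ^ 2 - C| / (β * min 1 (p - 1)) * ee β φ v t * (ee β φ v t + (p - 2) * ‖v t‖ ^ 2) :=
      mul_le_mul_of_nonneg_left h1 (by positivity)
    refine le_trans ?_ h5
    rw [h4]
    have h6 : 2 * |⟪φ t, v t⟫| ≤ ee β φ v t / β := by
      rw [le_div_iff₀ hβ0]; linarith
    calc 2 * |β ^ 2 - C| * |⟪φ t, v t⟫| * ee β φ v t
        = |β ^ 2 - C| * ee β φ v t * (2 * |⟪φ t, v t⟫|) := by ring
      _ ≤ _ := mul_le_mul_of_nonneg_left h6 (by positivity)
  -- some point with positive `e`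
  have hex : ∃ t₀, 0 < ee β φ v t₀ := by
    by_contra hcon
    push Not at hcon
    apply hnc
    have hz : ∀ t, fderiv ℝ h (ec t) = 0 := by
      intro t
      rw [← grad_eq_zero_iff, ← norm_eq_zero]
      have := hcon t
      rw [hee] at this
      exact pow_eq_zero_iff two_ne_zero |>.mp (le_antisymm this (by positivity))
    intro x
    apply grad_congr
    rw [hA3 hβ]
    by_cases hx : x = 0
    · rw [hx]; exact hA3 hβ
    · obtain ⟨t, ht⟩ := exists_polar x hx
      rw [ht, hA1 _ _ (norm_pos_iff.mpr hx), hz]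
      ext w a
      simp
  obtain ⟨t₀, ht₀⟩ := hex
  have hpos' : ∀ t, 0 < ee β φ v t := hpos t₀ ht₀
  have hDpos' : ∀ t, 0 < ee β φ v t + (p - 2) * ‖v t‖ ^ 2 := fun t =>
    lt_of_lt_of_le (mul_pos hmin (hpos' t)) (hDpos t (hpos' t))
  -- derivative of `v`
  set κ : ℝ → ℝ := fun t => (p - 2) * (β ^ 2 - C) * ⟪φ t, v t⟫ /
      (ee β φ v t + (p - 2) * ‖v t‖ ^ 2) with hκ
  have hκc : Continuous κ := by
    apply Continuous.div
    · fun_prop
    · fun_prop
    · intro t; exact (hDpos' t).ne'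
  have hvd : ∀ t, HasDerivAt v (-(C • φ t) - κ t • v t) t := by
    intro t
    have h1 : HasDerivAt (fun s => ee β φ v s ^ (-((p - 2) / 2)))
        (2 * (β ^ 2 - C) * ⟪φ t, v t⟫ * ee β φ v t / (ee β φ v t + (p - 2) * ‖v t‖ ^ 2) *
          (-((p - 2) / 2)) * ee β φ v t ^ (-((p - 2) / 2) - 1)) t :=
      (hed t (hpos' t)).rpow_const (Or.inl (hpos' t).ne')
    have h2 := h1.smul (hGd' t)
    have h3 : (fun s => ee β φ v s ^ (-((p - 2) / 2)) • (ee β φ v s ^ ((p - 2) / 2) • v s)) = v := by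
      funext s
      rw [smul_smul, ← Real.rpow_add (hpos' s)]
      simp
    have h4 : ee β φ v t ^ (-((p - 2) / 2)) * ee β φ v t ^ ((p - 2) / 2) = 1 := by
      rw [← Real.rpow_add (hpos' t)]; simp
    have h5 : ee β φ v t ^ (-((p - 2) / 2) - 1) * ee β φ v t ^ ((p - 2) / 2) * ee β φ v t = 1 := by
      rw [← Real.rpow_add (hpos' t)]
      nth_rewrite 2 [← Real.rpow_one (ee β φ v t)]
      rw [← Real.rpow_add (hpos' t)]
      ring_nf
      simp
    have h6 := h2.congr_of_eventuallyEq (f₁ := v)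
      (Eventually.of_forall fun s => (congrFun h3 s).symm)
    refine h6.congr_deriv ?_
    rw [smul_neg, smul_smul, smul_smul, smul_smul]
    have e1 : ee β φ v t ^ (-((p - 2) / 2)) * C * ee β φ v t ^ ((p - 2) / 2) = C := by
      calc _ = C * (ee β φ v t ^ (-((p - 2) / 2)) * ee β φ v t ^ ((p - 2) / 2)) := by ring
        _ = C := by rw [h4, mul_one]
    have e2 : 2 * (β ^ 2 - C) * ⟪φ t, v t⟫ * ee β φ v t / (ee β φ v t + (p - 2) * ‖v t‖ ^ 2) *
          (-((p - 2) / 2)) * ee β φ v t ^ (-((p - 2) / 2) - 1) * ee β φ v t ^ ((p - 2) / 2)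
          = - κ t := by
      calc _ = -((p - 2) * (β ^ 2 - C) * ⟪φ t, v t⟫ / (ee β φ v t + (p - 2) * ‖v t‖ ^ 2)) *
            (ee β φ v t ^ (-((p - 2) / 2) - 1) * ee β φ v t ^ ((p - 2) / 2) * ee β φ v t) := by
            ring
        _ = _ := by rw [h5, mul_one]
    rw [e1, e2, neg_smul]
    abel
  obtain ⟨z, y, hz, hy, hzn, hyn, hzy, hzp, hyp⟩ := hG n C κ φ v hκc hB1 hvd
  have hfin : 4 ≤ CC p β := by
    refine hI p β z y hp hβ hz ?_ ?_ ?_ ?_
    · intro t
      refine (hy t).congr_deriv ?_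
      rw [hzy, hzn, hyn]
      have hk : κ t = -(KK p β * ⟪φ t, v t⟫ / (β ^ 2 * ‖φ t‖ ^ 2 + (p - 1) * ‖v t‖ ^ 2)) := by
        have e1 : ee β φ v t + (p - 2) * ‖v t‖ ^ 2 = β ^ 2 * ‖φ t‖ ^ 2 + (p - 1) * ‖v t‖ ^ 2 := by
          unfold ee; ring
        have e2 : (p - 2) * (β ^ 2 - C) = - KK p β := by
          rw [hCdef]; unfold CC KK; ring
        simp only [hκ]
        rw [e1, e2]; ring
      rw [hk]
      push_cast
      ring
    · apply hzp
      have := (hper 0).1
      rwa [zero_add] at this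
    · apply hyp
      have := (hper 0).2
      rwa [zero_add] at this
    · intro t
      rw [hzn, hyn]
      exact hpos' t
  refine ⟨hfin, ?_, ?_⟩
  · intro t
    have := hpos' t
    rw [hee] at this
    refine lt_of_le_of_ne (norm_nonneg _) (fun h0 => ?_)
    rw [← h0] at this
    norm_num at this
  · have hφC1 : ContDiff ℝ 1 φ := by
      rw [contDiff_one_iff_deriv]
      refine ⟨fun t => (hB1 t).differentiableAt, ?_⟩
      have : deriv φ = v := funext fun t => (hB1 t).deriv
      rw [this]; exact hvc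
    have hvC1 : ContDiff ℝ 1 v := by
      rw [contDiff_one_iff_deriv]
      refine ⟨fun t => (hvd t).differentiableAt, ?_⟩
      have : deriv v = fun t => (-(C • φ t) - κ t • v t) := funext fun t => (hvd t).deriv
      rw [this]; fun_prop
    rw [contDiff_euclidean]
    rintro ⟨α, i⟩
    have : (fun t => grad h (ec t) (α, i)) = fun t => β * ec t i * φ t α + et t i * v t α := by
      funext t; exact hgrad t α i
    rw [this]
    have h1 := contDiff_euclidean.mp hφC1 α
    have h2 := contDiff_euclidean.mp hvC1 α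
    have h3 := contDiff_euclidean.mp (contDiff_ec (m := 1)) i
    have h4 := contDiff_euclidean.mp (contDiff_et (m := 1)) i
    exact ((contDiff_const.mul h3).mul h1).add (h4.mul h2)

end Pool.Agent.H238.PH
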