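import Mathlib

set_option autoImplicit false

/-!
# Project PH (MP_815c6c_an, planar homogeneous p-harmonic maps)

Every C¹ p-harmonic map `h : ℝ² → ℝⁿ` which is positively homogeneous of degree `β` has constant
gradient or satisfies `β((p-1)β+2-p) ≥ 4`; `V(∇h)` is C¹ and its mean oscillation decays linearly.

The statements `S_X` below are the tasks; each docstring has the complete paper proof.
-/

namespace Pool.Agent.H238.PH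

open MeasureTheory Set Filter Topology
open scoped ContDiff RealInnerProductSpace ComplexConjugate

/-- `ℝ^m` with the Euclidean norm. -/
abbrev RE (m : ℕ) := EuclideanSpace ℝ (Fin m)

/-- Real `n × d` matrices with the Frobenius norm. -/
abbrev Mat (n d : ℕ) := EuclideanSpace ℝ (Fin n × Fin d)

/-- `A(ξ) = |ξ|^(p-2) ξ`. -/
noncomputable def Aop (p : ℝ) {n d : ℕ} (ξ : Mat n d) : Mat n d := ‖ξ‖ ^ (p - 2) • ξ

/-- `V(ξ) = |ξ|^((p-2)/2) ξ`. -/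
noncomputable def Vop (p : ℝ) {n d : ℕ} (ξ : Mat n d) : Mat n d := ‖ξ‖ ^ ((p - 2) / 2) • ξ

/-- The gradient (Jacobian matrix) of `h` at `x`. -/
noncomputable def grad {n d : ℕ} (h : RE d → RE n) (x : RE d) : Mat n d :=
  WithLp.toLp 2 fun β => fderiv ℝ h x (EuclideanSpace.single β.2 1) β.1

/-- `h ∈ C¹(ℝ^d;ℝ^n)` is `p`-harmonic on `ℝ^d`: `∫ ⟨A(∇h), ∇φ⟩ = 0` for all test maps `φ`. -/
structure IsPHarmonic {d n : ℕ} (p : ℝ) (h : RE d → RE n) : Prop where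
  contDiff : ContDiff ℝ 1 h
  weak_eq : ∀ φ : RE d → RE n, ContDiff ℝ ∞ φ → HasCompactSupport φ →
    ∫ x, ∑ α : Fin n, ∑ i : Fin d,
      Aop p (grad h x) (α, i) * (fderiv ℝ φ x (EuclideanSpace.single i 1)) α = 0

/-- the mean oscillation `(⨍_S |f - ⟨f⟩_S|^2)^(1/2)`. -/
noncomputable def osc {d n : ℕ} (f : RE d → Mat n d) (S : Set (RE d)) : ℝ :=
  Real.sqrt (⨍ x in S, ‖f x - ⨍ y in S, f y‖ ^ 2)

/-- positive homogeneity of degree `β` -/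
def Hom {E F : Type*} [AddCommGroup E] [Module ℝ E] [AddCommGroup F] [Module ℝ F]
    (β : ℝ) (h : E → F) : Prop := ∀ (t : ℝ) (x : E), 0 < t → h (t • x) = t ^ β • h x

/-- the point of the unit circle with angle `t` -/
noncomputable def ec (t : ℝ) : RE 2 := !₂[Real.cos t, Real.sin t]

/-- its tangent vector -/
noncomputable def et (t : ℝ) : RE 2 := !₂[-Real.sin t, Real.cos t]

/-- `C = β((p-1)β+2-p)` -/
noncomputable def CC (p β : ℝ) : ℝ := β * ((p - 1) * β + 2 - p)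

/-- `K = (p-2)²β(β-1)` -/
noncomputable def KK (p β : ℝ) : ℝ := (p - 2) ^ 2 * β * (β - 1)

/-- A. Homogeneity of the derivative.
Proof. Differentiate `h(t x) = t^β h(x)` in `x`: `t Dh(tx) = t^β Dh(x)`.
If `β < 1`: `Dh(x) = t^(1-β) Dh(tx) → 0` as `t → 0+` (`Dh` is continuous at 0, so bounded near 0),
so `Dh = 0` everywhere. If `β = 1`: `Dh(x) = Dh(tx) → Dh(0)`.
If `β > 1`: with `x = 0` and `t = 2`: `Dh(0) = 2^(β-1) Dh(0)`, so `Dh(0) = 0`. -/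
def S_A : Prop := ∀ (n : ℕ) (β : ℝ) (h : RE 2 → RE n), ContDiff ℝ 1 h → Hom β h →
  (∀ (t : ℝ) (x : RE 2), 0 < t → fderiv ℝ h (t • x) = t ^ (β - 1) • fderiv ℝ h x) ∧
  (β ≤ 1 → ∀ x, fderiv ℝ h x = fderiv ℝ h 0) ∧ (1 < β → fderiv ℝ h 0 = 0)

/-- B. Polar data.
Proof. `ec' = et` (coordinatewise) and the chain rule; Euler: differentiate `h(t x) = t^β h(x)` in
`t` at `t = 1`, `x = ec t`. `(ec t, et t)` is an orthonormal basis of `ℝ²` and the Frobenius norm is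
`‖T e₁‖²+‖T e₂‖² = ‖T u‖²+‖T v‖²` for each orthonormal basis (here: by direct computation,
`ec t = cos t e₁ + sin t e₂`, `et t = - sin t e₁ + cos t e₂`, `cos²+sin²=1`). -/
def S_B : Prop := ∀ (n : ℕ) (β : ℝ) (h : RE 2 → RE n), ContDiff ℝ 1 h → Hom β h →
  (∀ t, HasDerivAt (fun s => h (ec s)) (fderiv ℝ h (ec t) (et t)) t) ∧
  (∀ t, fderiv ℝ h (ec t) (ec t) = β • h (ec t)) ∧
  (∀ x t, ‖grad h x‖ ^ 2 = ‖fderiv ℝ h x (ec t)‖ ^ 2 + ‖fderiv ℝ h x (et t)‖ ^ 2) ∧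
  (∀ t, ‖grad h (ec t)‖ ^ 2 = β ^ 2 * ‖h (ec t)‖ ^ 2 + ‖fderiv ℝ h (ec t) (et t)‖ ^ 2)

/-- C1. Polar coordinates in `ℝ² = EuclideanSpace ℝ (Fin 2)`.
Proof. Mathlib: `integral_comp_polarCoord_symm` (on `ℝ × ℝ`) or `Complex.integral_comp_polarCoord_symm`,
measure preserving maps `EuclideanSpace.volume_preserving_measurableEquiv` (or its current name),
`MeasureTheory.volume_preserving_finTwoArrow`; `polarCoord.target = Ioi 0 ×ˢ Ioo (-π) π`,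
`setIntegral_prod`. -/
def S_C1 : Prop := ∀ f : RE 2 → ℝ, Continuous f → HasCompactSupport f →
  ∫ x, f x = ∫ r in Ioi (0 : ℝ), ∫ t in (-Real.pi)..Real.pi, r * f (r • ec t)

/-- C2. Test functions with one Fourier mode.
Proof. `χ : ℝ → ℝ` smooth, `0 ≤ χ ≤ 1`, `χ = 1` on `[-1,1]`, `χ = 0` outside `[-4,4]`
(e.g. a `ContDiffBump` or `Real.smoothTransition`), `g(r) = χ(r²) r^k`,
`ψc(x) = χ(‖x‖²) Re((x₁+ix₂)^k)`, `ψs(x) = χ(‖x‖²) Im((x₁+ix₂)^k)`;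
`(r cos t + i r sin t)^k = r^k (cos kt + i sin kt)` (de Moivre). -/
def S_C2 : Prop := ∀ k : ℕ, ∃ (g : ℝ → ℝ) (ψc ψs : RE 2 → ℝ),
  ContDiff ℝ ∞ g ∧ HasCompactSupport g ∧ (∀ r, 0 < r → 0 ≤ g r) ∧ g 1 = 1 ∧
  ContDiff ℝ ∞ ψc ∧ HasCompactSupport ψc ∧ ContDiff ℝ ∞ ψs ∧ HasCompactSupport ψs ∧
  (∀ r t, ψc (r • ec t) = g r * Real.cos (k * t)) ∧
  (∀ r t, ψs (r • ec t) = g r * Real.sin (k * t))

/-- C3. Separation of variables in the weak equation.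
Let `ψ` be smooth with compact support, `ψ(r ec t) = g(r) c(t)`, `c' ` the derivative of `c`.
Proof. Put `E = RE n`, `w ∈ E`, `φ = ψ • w` as test map: the weak equation reads
`∫ ‖∇h(x)‖^(p-2) Σ_i ∂_iψ(x) ⟨Dh(x)e_i, w⟩ dx = 0`.
Pointwise `Σ_i ∂_iψ(x) Dh(x)e_i = (Dψ(x)ec t) Dh(x)(ec t) + (Dψ(x) et t) Dh(x)(et t)`
(orthonormal bases). At `x = r ec t`, `r > 0`: `Dψ(x)(ec t) = g'(r) c(t)` (differentiate
`r ↦ ψ(r ec t)`), `r Dψ(x)(et t) = g(r) c'(t)` (differentiate in `t`),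
`Dh(x) = r^(β-1) Dh(ec t)` (S_A), so `‖∇h(x)‖ = r^(β-1) ‖∇h(ec t)‖`, `Dh(ec t)(ec t) = β h(ec t)`.
With `P(t) = ‖∇h(ec t)‖^(p-2)`, `m = (β-1)(p-1) > 0` the integrand at `r ec t`, multiplied by the
Jacobian `r`, is `r^(m+1) g'(r) c(t) β P ⟨h(ec t),w⟩ + r^m g(r) c'(t) P ⟨Dh(ec t)(et t),w⟩`.
(Note `r * r^((β-1)(p-2)) * r^(β-1) = r^(m+1)`.) The integrand `f` on `ℝ²` is continuous
(`A(ξ) = ‖ξ‖^(p-2) ξ` is continuous since `p > 1`, also at `0`) with compact support: use S_C1.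
Finally `∫_0^∞ r^(m+1) g'(r) dr = -(m+1) ∫_0^∞ r^m g(r) dr` (integration by parts,
`m+1 > 0`, compact support) and `∫_0^∞ r^m g(r) dr > 0` (`g ≥ 0` continuous, `g(1)=1`), so
`∫ P c' ⟨Dh(ec t)(et t), w⟩ = β(m+1) ∫ P c ⟨h(ec t), w⟩` and `β(m+1) = CC p β`. All `w`: done. -/
def S_C : Prop := ∀ (n : ℕ) (p β : ℝ) (h : RE 2 → RE n), 1 < p → 1 < β →
  IsPHarmonic p h → Hom β h → ∀ k : ℕ,
  (∫ t in (-Real.pi)..Real.pi, (-(k : ℝ) * Real.sin (k * t)) •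
      (‖grad h (ec t)‖ ^ (p - 2) • fderiv ℝ h (ec t) (et t))
    = CC p β • ∫ t in (-Real.pi)..Real.pi, Real.cos (k * t) •
      (‖grad h (ec t)‖ ^ (p - 2) • h (ec t))) ∧
  (∫ t in (-Real.pi)..Real.pi, ((k : ℝ) * Real.cos (k * t)) •
      (‖grad h (ec t)‖ ^ (p - 2) • fderiv ℝ h (ec t) (et t))
    = CC p β • ∫ t in (-Real.pi)..Real.pi, Real.sin (k * t) •
      (‖grad h (ec t)‖ ^ (p - 2) • h (ec t)))

/-- D. From the moments to the differential equation.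
Proof. It suffices to treat each coordinate (real functions `F, G`). For `k = 0` the first
equation gives `∫_{-π}^{π} F = 0` (`C ≠ 0`), so `Φ(t) = ∫_0^t F` is `2π`-periodic and C¹, and
`ψ = G + C Φ` is continuous and `2π`-periodic. For `c ∈ {cos kt, sin kt}` integration by parts over
`[-π,π]` (boundary terms cancel by periodicity) gives `∫ Φ c' = -∫ F c`, hence
`∫ ψ c' = ∫ G c' - C ∫ F c = 0`; so for all `k ≥ 1` `∫ ψ sin kt = 0 = ∫ ψ cos kt`: all Fourier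
coefficients of `ψ` with nonzero index vanish and `ψ` is constant (a continuous function on
`AddCircle (2π)` is determined by its Fourier coefficients: e.g.
`hasSum_fourier_series_of_summable` / `fourierCoeff`; other proof: `∫ (ψ - mean) q = 0` for all
trigonometric polynomials `q`, Stone-Weierstrass). So `G = const - C Φ`, `G' = - C F`. -/
def S_D : Prop := ∀ (n : ℕ) (F G : ℝ → RE n) (C : ℝ), C ≠ 0 → Continuous F → Continuous G →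
  (∀ t, F (t + 2 * Real.pi) = F t) → (∀ t, G (t + 2 * Real.pi) = G t) →
  (∀ k : ℕ, ∫ t in (-Real.pi)..Real.pi, (-(k : ℝ) * Real.sin (k * t)) • G t
    = C • ∫ t in (-Real.pi)..Real.pi, Real.cos (k * t) • F t) →
  (∀ k : ℕ, ∫ t in (-Real.pi)..Real.pi, ((k : ℝ) * Real.cos (k * t)) • G t
    = C • ∫ t in (-Real.pi)..Real.pi, Real.sin (k * t) • F t) →
  ∀ t, HasDerivAt G (-(C • F t)) t

/-- `e = β²|φ|²+|v|²` -/
noncomputable def ee {n : ℕ} (β : ℝ) (φ v : ℝ → RE n) (t : ℝ) : ℝ :=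
  β ^ 2 * ‖φ t‖ ^ 2 + ‖v t‖ ^ 2

/-- E. Differentiability of `e` where it is positive.
Proof. Put `w = e^((p-2)/2) v`, `a = |φ|²`, `b = |w|²`; `a, b` are differentiable with
`a' = 2⟨φ,v⟩`, `b' = 2⟨w,w'⟩ = -2C e^(p-2) ⟨φ,v⟩`. `e` is continuous and positive near `t` and
satisfies `F(a,b,e) = 0`, `F(a,b,e) = e^(p-1) - β² a e^(p-2) - b` (because
`b = e^(p-2)|v|² = e^(p-2)(e-β²a)`). `F` is C¹ for `e > 0` with
`∂F/∂e = e^(p-3)((p-1)e - (p-2)β²a) = e^(p-3)(e + (p-2)|v|²) > 0`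
(`e + (p-2)|v|² = β²|φ|²+(p-1)|v|² > 0`). Since `e` is continuous at `t`, strict
differentiability of `F` at `(a(t),b(t),e(t))` gives
`0 = F_a (a(s)-a(t)) + F_b (b(s)-b(t)) + F_e (e(s)-e(t)) + o(|a(s)-a(t)|+|b(s)-b(t)|+|e(s)-e(t)|)`,
whence `e` is differentiable at `t` and `F_a a' + F_b b' + F_e e' = 0`, i.e.
`e^(p-3)(e+(p-2)|v|²) e' = 2β² e^(p-2) ⟨φ,v⟩ + b' = 2(β²-C) e^(p-2) ⟨φ,v⟩`.
(Alternatively: implicit function theorem; or first divide: with `x = e`, `β²a x^(p-2) + b = x^(p-1)`,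
so `log`-type monotone function; any proof is fine.) -/
def S_E : Prop := ∀ (n : ℕ) (p β C : ℝ) (φ v : ℝ → RE n), 1 < p → 0 < β →
  (∀ t, HasDerivAt φ (v t) t) → Continuous v →
  (∀ t, HasDerivAt (fun s => ee β φ v s ^ ((p - 2) / 2) • v s)
    (-(C • (ee β φ v t ^ ((p - 2) / 2) • φ t))) t) →
  ∀ t, 0 < ee β φ v t →
    HasDerivAt (ee β φ v)
      (2 * (β ^ 2 - C) * ⟪φ t, v t⟫ * ee β φ v t / (ee β φ v t + (p - 2) * ‖v t‖ ^ 2)) t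

/-- F. Propagation of positivity.
Proof. Let `f t₀ > 0`. Consider `t > t₀` (the other side by reflection). If `f` vanishes somewhere in
`[t₀,t]`, let `s` be the first zero; on `[t₀,s)` `f > 0` and `f(x) exp(L(x-t₀))` has derivative
`≥ 0` (`L ≥ 0` or replace `L` by `|L|`), so `f(x) ≥ f(t₀) exp(-L(x-t₀))` for `x < s`, and by
continuity `f(s) > 0`, contradiction. -/
def S_F : Prop := ∀ (f f' : ℝ → ℝ) (L : ℝ), Continuous f → (∀ t, 0 ≤ f t) →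
  (∀ t, 0 < f t → HasDerivAt f (f' t) t ∧ |f' t| ≤ L * f t) →
  ∀ t₀, 0 < f t₀ → ∀ t, 0 < f t

/-- G. Reduction to the complex plane.
Proof. Let `W = span{φ(0), v(0)}`, `finrank W ≤ 2`. For each continuous linear `ℓ` vanishing on `W`
the pair `(ℓφ, ℓv)` solves the linear system `x' = y, y' = -C x - κ(t) y` with zero data at `0`, so
vanishes identically (Gronwall / uniqueness, `κ` is bounded on compact intervals): hence
`φ(t), v(t) ∈ W` for all `t` (apply with `ℓ = ⟨u, ·⟩`, `u ∈ Wᗮ`). There is a linear isometry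
`ι : W → ℂ` (`finrank W ≤ 2`: orthonormal bases). Put `z = ι φ`, `y = ι v`;
`re(conj a * b) = ⟪a, b⟫` on `ℂ`. -/
def S_G : Prop := ∀ (n : ℕ) (C : ℝ) (κ : ℝ → ℝ) (φ v : ℝ → RE n), Continuous κ →
  (∀ t, HasDerivAt φ (v t) t) → (∀ t, HasDerivAt v (-(C • φ t) - κ t • v t) t) →
  ∃ z y : ℝ → ℂ, (∀ t, HasDerivAt z (y t) t) ∧
    (∀ t, HasDerivAt y (-(C : ℂ) * z t - (κ t : ℂ) * y t) t) ∧
    (∀ t, ‖z t‖ = ‖φ t‖) ∧ (∀ t, ‖y t‖ = ‖v t‖) ∧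
    (∀ t, (conj (z t) * y t).re = ⟪φ t, v t⟫) ∧
    (∀ s t, φ s = φ t → z s = z t) ∧ (∀ s t, v s = v t → y s = y t)

/-- H. Winding numbers.
Proof. `Im(Z' conj Z)/‖Z‖² = Im(Z'/Z)`. The function `Z(t) exp(-∫_0^t Z'/Z)` has derivative zero, so
`exp(∫_0^{2π} Z'/Z) = Z(2π)/Z(0) = 1` and `∫_0^{2π} Z'/Z = 2πi k`, `k ∈ ℤ`
(`Complex.exp_eq_one_iff`); take imaginary parts. For the second curve: `R = Z/Y` has
`Re R = Re(Z conj Y)/‖Y‖² > 0`, so `R ∈ slitPlane`, `log R` is differentiable with derivative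
`Z'/Z - Y'/Y`, and `∫_0^{2π} (Z'/Z - Y'/Y) = log R(2π) - log R(0) = 0`. -/
def S_H : Prop := ∀ Z Z' Y Y' : ℝ → ℂ, (∀ t, HasDerivAt Z (Z' t) t) → Continuous Z' →
  (∀ t, HasDerivAt Y (Y' t) t) → Continuous Y' → Z (2 * Real.pi) = Z 0 → Y (2 * Real.pi) = Y 0 →
  (∀ t, 0 < (Z t * conj (Y t)).re) →
  ∃ k : ℤ, ∫ t in (0 : ℝ)..(2 * Real.pi), (Z' t * conj (Z t)).im / ‖Z t‖ ^ 2 = 2 * Real.pi * k ∧
    ∫ t in (0 : ℝ)..(2 * Real.pi), (Y' t * conj (Y t)).im / ‖Y t‖ ^ 2 = 2 * Real.pi * k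

/-- I1. The pointwise algebra. `z, y ∈ ℂ`, `m = Im(conj z · y) ≥ 0`, `q = Re(conj z · y)`,
`D = β²|z|²+(p-1)|y|²`, `C = CC p β`, `K = KK p β`, `Z_μ = y + iμz`, `Z_μ' = -Cz + (Kq/D) y + iμ y`.
Proof. `‖Z_μ‖² = |y|²+μ²|z|²+2μm` (write `z = a+ib`, `y = c+id`: `q = ac+bd`, `m = ad-bc`),
`Im(Z_μ' conj Z_μ) = μ(|y|²+C|z|² - K q²/D) + (C+μ²) m`.
`C = β²(p-1) - β(p-2) = β(1+(p-1)(β-1)) > 0`.
(i) `μ = √C`: `Im(Z' conj Z) = √C ‖Z‖² - √C K q²/D ≤ √C ‖Z‖²` (`K ≥ 0`).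
(ii) `μ = β`: `Im(Z' conj Z) - ‖Z‖² = (β-1)(|y|² + β²(p-1)|z|² + pβm - (p-2)²β²q²/D)`
(because `βC - β² = β²(p-1)(β-1)`, `C+β²-2β = pβ(β-1)`, `βK = (p-2)²β²(β-1)`) and, with `X = |y|²`,
`Y = β²|z|²`, `β²q² ≤ XY`, `D = Y+(p-1)X`:
`(X+(p-1)Y)(Y+(p-1)X) - (p-2)² X Y = (p-1)(X+Y)² > 0`, so it is `> 0`.
(iii) `Re(Z_β conj Z_{√C}) = |y|²+β√C|z|²+(β+√C)m > 0`. -/
def S_I1 : Prop := ∀ (p β : ℝ) (z y : ℂ), 1 < p → 1 < β →
  0 < β ^ 2 * ‖z‖ ^ 2 + ‖y‖ ^ 2 → 0 ≤ (conj z * y).im →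
  ∀ (C K D q : ℝ), C = CC p β → K = KK p β → q = (conj z * y).re →
    D = β ^ 2 * ‖z‖ ^ 2 + (p - 1) * ‖y‖ ^ 2 →
    0 < C ∧ 0 < D ∧
    ((-(C : ℂ) * z + ((K * q / D : ℝ) : ℂ) * y + Complex.I * (Real.sqrt C : ℂ) * y) *
      conj (y + Complex.I * (Real.sqrt C : ℂ) * z)).im
        ≤ Real.sqrt C * ‖y + Complex.I * (Real.sqrt C : ℂ) * z‖ ^ 2 ∧
    ‖y + Complex.I * (β : ℂ) * z‖ ^ 2 <
      ((-(C : ℂ) * z + ((K * q / D : ℝ) : ℂ) * y + Complex.I * (β : ℂ) * y) *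
      conj (y + Complex.I * (β : ℂ) * z)).im ∧
    0 < ((y + Complex.I * (β : ℂ) * z) * conj (y + Complex.I * (Real.sqrt C : ℂ) * z)).re

/-- I2. The core estimate: a periodic solution forces `C ≥ 4`.
Proof (uses S_H and S_I1). `m = Im(conj z y)` satisfies `m' = -κ m`, `κ = -Kq/D` continuous, so
`m(t) = m(0) exp(-∫_0^t κ)` has a constant sign; replacing `(z,y)` by `(conj z, conj y)` (which
satisfies the same hypotheses; `q` is unchanged, `m` changes sign) we may assume `m ≥ 0`. Put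
`Z_μ = y+iμz`, `Z_μ' = -Cz + (Kq/D)y + iμy` for `μ = β` and `μ = √C`; by S_I1 (iii) and S_H both
have the same winding number `k ∈ ℤ`; by (ii) (a strict inequality between continuous functions,
`‖Z_β‖ > 0`) `2πk > 2π`, by (i) `2πk ≤ 2π√C`. So `k ≥ 2` and `√C ≥ 2`, `C ≥ 4`. -/
def S_I2 : Prop := ∀ (p β : ℝ) (z y : ℝ → ℂ), 1 < p → 1 < β →
  (∀ t, HasDerivAt z (y t) t) →
  (∀ t, HasDerivAt y (-(CC p β : ℂ) * z t + ((KK p β * (conj (z t) * y t).re /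
      (β ^ 2 * ‖z t‖ ^ 2 + (p - 1) * ‖y t‖ ^ 2) : ℝ) : ℂ) * y t) t) →
  z (2 * Real.pi) = z 0 → y (2 * Real.pi) = y 0 →
  (∀ t, 0 < β ^ 2 * ‖z t‖ ^ 2 + ‖y t‖ ^ 2) → 4 ≤ CC p β

/-- K. Numerical consequence.
Proof. `f(β) = β((p-1)β+2-p)` is increasing for `β ≥ 1` (`p > 1`) and
`f(1+2/p) = 3+4/p-4/p² = 4-(1-2/p)² < 4` for `p ≠ 2`. So `4 ≤ f(β)` forces `β > 1+2/p`. -/
def S_K : Prop := ∀ p β : ℝ, 1 < p → p ≠ 2 → 1 < β → 4 ≤ CC p β →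
  1 + 2 / p < β ∧ 1 < (β - 1) * p / 2

/-- L. A field with C¹ polar profile is C¹ away from the origin.
Proof. Let `x₀ ≠ 0`, `x₀ = |x₀| ec t₀`. Near `x₀`: `x = |x| ec(t₀ + τ(x))` with
`τ(x) = arg(X/X₀) = Im log(X/X₀)`, `X = x₁+ix₂`, `X₀ = x₀₁+ix₀₂`, smooth near `x₀`
(`Complex.log` is smooth on `slitPlane`, `X/X₀` is near 1), so `G(x) = |x|^α g(t₀+τ(x))` near `x₀`
is C¹ (`|x|` smooth and positive near `x₀`; `ContDiffAt.rpow_const_of_ne`). -/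
def S_L : Prop := ∀ (n : ℕ) (α : ℝ) (G : RE 2 → Mat n 2) (g : ℝ → Mat n 2), ContDiff ℝ 1 g →
  (∀ r t : ℝ, 0 < r → G (r • ec t) = r ^ α • g t) → ∀ x, x ≠ 0 → ContDiffAt ℝ 1 G x

/-- M. Homogeneous of degree `γ > 1` and C¹ off the origin implies C¹, with a bound on `DV`.
Proof. `V(0) = 0` (take `t = 2`, `x = 0`). `|V(x)| ≤ M|x|^γ` with `M = max over the unit circle`
(`V` continuous off 0, unit sphere compact, homogeneity), so `V` is differentiable at `0` with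
derivative `0` (`γ > 1`). `DV(tx) = t^(γ-1) DV(x)` for `x ≠ 0`, `t > 0`, so with
`L = max over the unit circle of ‖DV‖`: `‖DV(x)‖ ≤ L|x|^(γ-1)`, also at `0`; hence `DV → 0 = DV(0)`
at `0` and `DV` is continuous everywhere: `contDiff_one_iff_fderiv`. -/
def S_M : Prop := ∀ (n : ℕ) (γ : ℝ) (V : RE 2 → Mat n 2), 1 < γ → Hom γ V →
  (∀ x, x ≠ 0 → ContDiffAt ℝ 1 V x) →
  ContDiff ℝ 1 V ∧ ∃ L : ℝ, 0 ≤ L ∧ ∀ x, ‖fderiv ℝ V x‖ ≤ L * ‖x‖ ^ (γ - 1)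

/-- N1. Upper bound for the mean oscillation.
Proof. On the convex ball `B(c,s)` `‖DV‖ ≤ L(|c|+s)^(γ-1)`, so `|V x - V y| ≤ 2sL(|c|+s)^(γ-1) =: T`
for `x, y ∈ B(c,s)`; hence `|V x - ⨍V| ≤ T` on the ball (average of `V x - V y`) and the root mean
square is `≤ T`. -/
def S_N1 : Prop := ∀ (n : ℕ) (γ L : ℝ) (V : RE 2 → Mat n 2), 1 < γ → 0 ≤ L → ContDiff ℝ 1 V →
  (∀ x, ‖fderiv ℝ V x‖ ≤ L * ‖x‖ ^ (γ - 1)) →
  ∀ (c : RE 2) (s : ℝ), 0 < s → osc V (Metric.ball c s) ≤ 2 * s * L * (‖c‖ + s) ^ (γ - 1)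

/-- N2. Lower bound for the mean oscillation of a homogeneous map.
Proof. `B = B(c,r)`, `B' = B(c,r/2)`, `λ = 1 + r/(2(|c|+r)) ∈ (1, 3/2]`. For `x ∈ B'`:
`|λx - c| ≤ |x-c| + (λ-1)|x| < r/2 + r/2`, so `λB' ⊆ B`. For each constant `a`:
`(λ^γ-1)²|V x|² = |V(λx) - V(x)|² ≤ 2|V(λx)-a|² + 2|V x - a|²`; integrating over `B'` and changing
variables (`dimension 2`: `∫_{B'} f(λx) dx = λ^(-2) ∫_{λB'} f ≤ ∫_B f` for `f ≥ 0`):
`(λ^γ-1)² ∫_{B'} |V|² ≤ 4 ∫_B |V-a|²`. Now `λ^γ - 1 ≥ λ - 1 = r/(2(|c|+r))` and `|V x| ≥ ν|x|^γ` with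
`ν = min over the unit circle of |V| > 0`; `B'` contains a ball `B(c', r/8)` with
`c' = c + (3r/8)u`, `u = c/|c|` (any unit vector if `c = 0`), on which
`|x| ≥ |c| + r/4 ≥ (|c|+r)/4`. Hence `∫_{B'}|V|² ≥ ν² ((|c|+r)/4)^(2γ) |B(0,1)| (r/8)²` and,
dividing by `|B| = |B(0,1)| r²`:
`osc² ≥ (1/4) (r/(2(|c|+r)))² ν² ((|c|+r)/4)^(2γ) /64 = c₀² r² (|c|+r)^(2γ-2)`. -/
def S_N2 : Prop := ∀ (n : ℕ) (γ : ℝ) (V : RE 2 → Mat n 2), 1 < γ → Hom γ V → Continuous V →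
  (∀ x, x ≠ 0 → V x ≠ 0) → ∃ c₀ : ℝ, 0 < c₀ ∧ ∀ (c : RE 2) (r : ℝ), 0 < r →
    c₀ * r * (‖c‖ + r) ^ (γ - 1) ≤ osc V (Metric.ball c r)

/-- O1. A continuous field, differentiable and divergence free off the origin, is weakly
divergence free.
Proof. `η F` is continuous with compact support, differentiable off `0`, with divergence
`⟨∇η, F⟩` off `0`, which is continuous (integrable): apply the divergence theorem on a large box
with the countable exceptional set `{0}`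
(`MeasureTheory.integral_divergence_of_hasFDerivAt_off_countable`, or the 2-dimensional version
`MeasureTheory.integral2_divergence_prod_of_hasFDerivWithinAt_off_countable`), boundary terms 0. -/
def S_O1 : Prop := ∀ (F : RE 2 → RE 2), Continuous F → (∀ x, x ≠ 0 → DifferentiableAt ℝ F x) →
  (∀ x, x ≠ 0 → ∑ i : Fin 2, (fderiv ℝ F x (EuclideanSpace.single i 1)) i = 0) →
  ∀ η : RE 2 → ℝ, ContDiff ℝ ∞ η → HasCompactSupport η →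
    ∫ x, ∑ i : Fin 2, F x i * fderiv ℝ η x (EuclideanSpace.single i 1) = 0

/-- O2. Sharpness (uses S_O1). For `n ≥ 2` take
`h(x) = |x|^(β-2) (x₁²-x₂², 2x₁x₂, 0, …, 0)`, where `β > 1` is the root of `β((p-1)β+2-p) = 4`
(exists by the intermediate value theorem / quadratic formula: value `1` at `β = 1`).
Proof. `h` is C¹ since `β > 1` (homogeneous of degree `β > 1`, smooth off 0), `h(ec t) = (cos 2t,
sin 2t, 0…)`, `|∇h(x)| = ρ|x|^(β-1)`, `ρ² = β²+4`; `A(∇h) = ρ^(p-2)|x|^((β-1)(p-2)) ∇h` is continuous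
(degree `(β-1)(p-1) > 0`), smooth off 0 and each row is divergence free off 0: for
`u = |x|^(β-2) q(x)` with `q` harmonic homogeneous of degree 2 and `s = (β-1)(p-2)`:
`div(|x|^s ∇u) = (β²-4+sβ) |x|^(s+β-4) q = (C-4)|x|^(s+β-4) q = 0`
(`∇u = |x|^(β-2)∇q + (β-2)|x|^(β-4) q x`, `⟨x,∇q⟩ = 2q`). -/
def S_O2 : Prop := ∀ (n : ℕ) (p : ℝ), 1 < p → 2 ≤ n → ∃ (β : ℝ) (h : RE 2 → RE n),
  1 < β ∧ CC p β = 4 ∧ IsPHarmonic p h ∧ Hom β h ∧ ¬ (∀ x, grad h x = grad h 0)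

end Pool.Agent.H238.PH
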